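import Pool.Agent.Helper30.CIR.Goals
import Pool.Agent.Helper56.RZ.Key
import Pool.Agent.Helper56.RZ.Fin5
import Pool.Agent.Helper33.RZ.B2
import Pool.Agent.Helper39.RZ.CS
import Pool.Agent.Helper41.RZ.QP
import Pool.Agent.Helper49.RZ.GTB
import Pool.Agent.Helper53.RZ.LI
import Pool.Agent.Helper55.RZ.T5
import Pool.Agent.Helper57.RZ.T3
import Pool.Agent.Helper64.RZ.A1
import Pool.Agent.Helper70.RZ.DP
import Pool.Agent.Helper77.RZ.PP
import Pool.Agent.Helper82.RZ.GTA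
import Pool.Agent.Helper93.RZ.B1
import Pool.Agent.Helper95.RZ.AN

/-!
# Persistence of strong partial hyperbolicity under `C^1`-small perturbations `f ∘ h`
-/

set_option autoImplicit false

open Set Filter Topology MeasureTheory

open scoped ContDiff

namespace Pool.Agent.Helper56.CIR

open Pool.Agent.Helper56.RZ Pool.Agent.Helper30.CIR

/-- one off-diagonal block -/
theorem block {K : ℕ} {P Q Q' A T : End K} {R δ η : ℝ} (hTQ : T * Q = Q) (h0 : Q' * Q = 0)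
    (hP : ‖P‖ ≤ R) (hQ : ‖Q‖ ≤ R) (hA : ‖A - T‖ ≤ δ) (hPQ : ‖P - Q'‖ ≤ η) :
    ‖P * A * Q‖ ≤ R * δ * R + η * R := by
  have hR : 0 ≤ R := (norm_nonneg _).trans hP
  have h1 : P * A * Q = P * (A - T) * Q + (P - Q') * Q := by
    have : P * (A - T) * Q = P * A * Q - P * Q := by
      rw [mul_sub, sub_mul, mul_assoc P T Q, hTQ]
    rw [this, sub_mul, h0]
    abel
  rw [h1]
  refine (norm_add_le _ _).trans (add_le_add ?_ ?_)
  · refine (norm_mul_le _ _).trans (mul_le_mul ((norm_mul_le _ _).trans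
      (mul_le_mul hP hA (norm_nonneg _) hR)) hQ (norm_nonneg _) ?_)
    exact mul_nonneg hR ((norm_nonneg _).trans hA)
  · exact (norm_mul_le _ _).trans (mul_le_mul hPQ hQ (norm_nonneg _) ((norm_nonneg _).trans hPQ))

theorem per (hB2 : StmtB2) (hDP : StmtDP) (hCL : StmtCL) (hLI : StmtLI) (hT4 : StmtT4)
    (hT5 : StmtT5) : StmtPER := by
  intro K M f f' P hM hf hP ε hε
  classical
  have hPH : PH M f f' P := hP.ph
  have hPi : ContinuousOn (Pi M) M :=
    (((hPH.cont 0).add (hPH.cont 1)).add (hPH.cont 2)).congr fun x hx => (hPH.sum x hx).symm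
  haveI hcM : CompactSpace M := isCompact_iff_compactSpace.1 hM
  obtain ⟨C, hC⟩ := hT4 K M f f' hPi hf
  obtain ⟨-, hcomp, -, hto, -⟩ := hT5 K M f f' C hf hC
  obtain ⟨hspl, n, hdom⟩ := hto P hPH
  obtain ⟨δk, ck, lk, hδk, hck, -, -, hkey⟩ := key hB2 hDP hCL hLI M K C _ n hspl hdom
  obtain ⟨R, hR1, hR⟩ := exists_bd3 _ hspl.cont
  have hck0 : 0 < ck := by linarith
  have hR0 : 0 < R := by linarith
  obtain ⟨κ, hκ0, hκ1, hκ2⟩ : ∃ κ : ℝ, 0 < κ ∧ κ ≤ δk ∧ ck * κ ≤ ε := by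
    refine ⟨min δk (ε / ck), lt_min hδk (by positivity), min_le_left _ _, ?_⟩
    have h1 : min δk (ε / ck) ≤ ε / ck := min_le_right _ _
    rw [le_div_iff₀ hck0] at h1
    linarith
  have huc : ∀ i : Fin 3, ∃ η > 0, ∀ x y : M, dist x y < η →
      ‖P i x - P i y‖ ≤ κ / (2 * R) := by
    intro i
    have h1 := CompactSpace.uniformContinuous_of_continuous (hspl.cont i)
    obtain ⟨η, hη, h2⟩ := Metric.uniformContinuous_iff.1 h1 (κ / (2 * R)) (by positivity)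
    refine ⟨η, hη, fun x y hxy => ?_⟩
    have := h2 hxy
    rw [dist_eq_norm] at this
    exact this.le
  choose η hη0 hη using huc
  obtain ⟨η', hη'0, hη'⟩ : ∃ η' : ℝ, 0 < η' ∧ ∀ i, η' ≤ η i := by
    refine ⟨min (η 0) (min (η 1) (η 2)), lt_min (hη0 0) (lt_min (hη0 1) (hη0 2)), fun i => ?_⟩
    fin_cases i
    · exact min_le_left _ _
    · exact (min_le_right _ _).trans (min_le_left _ _)
    · exact (min_le_right _ _).trans (min_le_right _ _)
  obtain ⟨δ, hδ0, hδ1, hδ2, hδ3⟩ : ∃ δ : ℝ, 0 < δ ∧ δ ≤ δk ∧ δ < η' ∧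
      R * δ * R + κ / (2 * R) * R ≤ κ := by
    refine ⟨min δk (min (η' / 2) (κ / (2 * R ^ 2))), ?_, min_le_left _ _, ?_, ?_⟩
    · exact lt_min hδk (lt_min (by positivity) (by positivity))
    · exact ((min_le_right _ _).trans (min_le_left _ _)).trans_lt (by linarith)
    · have h1 : min δk (min (η' / 2) (κ / (2 * R ^ 2))) ≤ κ / (2 * R ^ 2) :=
        (min_le_right _ _).trans (min_le_right _ _)
      rw [le_div_iff₀ (by positivity)] at h1
      have h2 : κ / (2 * R) * R = κ / 2 := by field_simp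
      rw [h2]
      nlinarith
  refine ⟨δ, hδ0, fun h h' hh hc => ?_⟩
  obtain ⟨H, hH⟩ := hT4 K M h h' hPi hh
  obtain ⟨e, hRep⟩ := hcomp H h h' hh hH
  have hNear : ∀ x : M, dist (H.f x) x ≤ δ ∧ ‖H.A x - H.T x‖ ≤ δ ∧ ‖H.B x - H.T x‖ ≤ δ := by
    intro x
    obtain ⟨h1, h2, h3⟩ := hc x x.2
    refine ⟨?_, ?_, ?_⟩
    · rw [Subtype.dist_eq, hH.rf, dist_eq_norm]
      exact h1
    · rw [hH.rA, hH.rT]
      exact h2
    · rw [hH.rB, hH.rT]
      exact h3
  have hN : Near H δk := fun x => by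
    obtain ⟨h1, h2, h3⟩ := hNear x
    exact ⟨h1.trans hδ1, h2.trans hδ1, h3.trans hδ1⟩
  have hTP : ∀ (x : M) i, H.T x * P i x = P i x := fun x i => by
    rw [hH.rT, ← hPH.sum x x.2, add_mul, add_mul, hPH.proj x x.2, hPH.proj x x.2,
      hPH.proj x x.2]
    fin_cases i <;> simp
  have hoff : ∀ (x : M) (i j : Fin 3), i ≠ j → ‖P i (H.f x) * H.A x * P j x‖ ≤ κ ∧
      ‖P i x * H.B (H.f x) * P j (H.f x)‖ ≤ κ := by
    intro x i j hij
    have hd : dist (H.f x) x < η i := (hNear x).1.trans_lt (hδ2.trans_le (hη' i))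
    constructor
    · refine (block (Q' := P i x) (hTP x j) ?_ (hR (H.f x) i) (hR x j) (hNear x).2.1
        (hη i _ _ hd)).trans hδ3
      rw [hPH.proj x x.2, if_neg hij]
    · refine (block (Q' := P i (H.f x)) (hTP (H.f x) j) ?_ (hR x i) (hR (H.f x) j)
        (hNear (H.f x)).2.2 (hη i x (H.f x) (by rw [dist_comm]; exact hd))).trans hδ3
      rw [hPH.proj _ (H.f x).2, if_neg hij]
  obtain ⟨Q', Γ, o⟩ := hkey H e hN κ hκ0.le hκ1 hoff
  have hdif : IsDiffeo 1 M (f ∘ h) (h' ∘ f') := hf.comp' hh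
  obtain ⟨-, -, -, -, hback⟩ := hT5 K M (f ∘ h) (h' ∘ f') (C.comp H e) hdif hRep
  obtain ⟨Q, hQ, hQPH⟩ := hback Q' n o.spl o.dom
  refine ⟨Q, hQPH.ph, fun x hx i => ?_⟩
  have h1 := o.close ⟨x, hx⟩ i
  rw [← hQ i ⟨x, hx⟩] at h1
  exact h1.trans hκ2

/-- persistence -/
theorem gPER : StmtPER := by
  have hAN := Pool.Agent.Helper95.RZ.an
  have hGTA := Pool.Agent.Helper82.RZ.gta
  have hGTB := Pool.Agent.Helper49.RZ.gtb
  have hPP := Pool.Agent.Helper77.RZ.pp hAN hGTA hGTB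
  have hB1 := Pool.Agent.Helper93.RZ.b1 hPP Pool.Agent.Helper41.RZ.qp
  have hA1 := Pool.Agent.Helper64.RZ.a1
  have hCL := Pool.Agent.Helper39.RZ.cl
  have hCS := Pool.Agent.Helper39.RZ.cs
  have hB2 := Pool.Agent.Helper33.RZ.b2 hA1 hB1 hCL hCS
  have hDP := Pool.Agent.Helper70.RZ.dp
  have hLI := Pool.Agent.Helper53.RZ.li
  have hT2 := Pool.Agent.Helper57.RZ.t2
  have hT3 := Pool.Agent.Helper57.RZ.t3 hT2
  have hT4 := Pool.Agent.Helper57.RZ.t4 hT2 hT3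
  have hT5 := Pool.Agent.Helper55.RZ.t5 hT2
  exact per hB2 hDP hCL hLI hT4 hT5

end Pool.Agent.Helper56.CIR
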